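import Pool.Agent.W8.ST.Stm

/-!
Project ST, part LapF.
-/

set_option autoImplicit false

open scoped ContDiff
open Pool.Agent.W8.ST

namespace Pool.Agent.W725.ST.LapF

theorem q_pos (t : ℝ) : 0 < q t := Real.exp_pos _

theorem q_diff : Differentiable ℝ q := by
  unfold q
  fun_prop

theorem det_gex (x : V 4) : (gex x).det = q (x 0) ^ 2 := by
  have h := (q_pos (x 0)).ne'
  unfold gex
  rw [Matrix.det_diagonal, Fin.prod_univ_four]
  simp only [Matrix.cons_val_zero, Matrix.cons_val_one, Matrix.cons_val]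
  field_simp

theorem sqrt_det (x : V 4) : √(gex x).det = q (x 0) := by
  rw [det_gex, Real.sqrt_sq (q_pos _).le]

theorem inv_gex (x : V 4) : (gex x)⁻¹ =
    Matrix.diagonal ![(q (x 0))⁻¹, (q (x 0) ^ 3)⁻¹, q (x 0), q (x 0)] := by
  have h := (q_pos (x 0)).ne'
  apply Matrix.inv_eq_right_inv
  unfold gex
  rw [Matrix.diagonal_mul_diagonal, ← Matrix.diagonal_one]
  congr 1
  funext i
  fin_cases i <;> simp [h]

theorem grad0 (u : V 4 → ℝ) (x : V 4) : grad gex u x 0 = (q (x 0))⁻¹ * pd 0 u x := by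
  unfold grad
  rw [inv_gex, Fin.sum_univ_four]
  simp

theorem grad1 (u : V 4 → ℝ) (x : V 4) : grad gex u x 1 = (q (x 0) ^ 3)⁻¹ * pd 1 u x := by
  unfold grad
  rw [inv_gex, Fin.sum_univ_four]
  simp

theorem grad2 (u : V 4 → ℝ) (x : V 4) : grad gex u x 2 = q (x 0) * pd 2 u x := by
  unfold grad
  rw [inv_gex, Fin.sum_univ_four]
  simp

theorem grad3 (u : V 4 → ℝ) (x : V 4) : grad gex u x 3 = q (x 0) * pd 3 u x := by
  unfold grad
  rw [inv_gex, Fin.sum_univ_four]
  simp

theorem pd_mul (h : ℝ → ℝ) (v : V 4 → ℝ) (hh : Differentiable ℝ h) (hv : Differentiable ℝ v)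
    (i : Fin 4) (hi : i ≠ 0) (x : V 4) :
    pd i (fun y => h (y 0) * v y) x = h (x 0) * pd i v x := by
  have h1 : HasFDerivAt (fun y : V 4 => y 0)
      (ContinuousLinearMap.proj (R := ℝ) (φ := fun _ : Fin 4 => ℝ) 0) x :=
    (ContinuousLinearMap.proj (R := ℝ) (φ := fun _ : Fin 4 => ℝ) 0).hasFDerivAt
  have h2 := (hh (x 0)).hasDerivAt.comp_hasFDerivAt x h1
  have h3 := h2.mul (hv x).hasFDerivAt
  unfold pd
  have h4 : (fun y : V 4 => h (y 0) * v y) = (h ∘ fun y : V 4 => y 0) * v := rfl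
  rw [h4, h3.fderiv]
  have h5 : (Pi.single i (1 : ℝ) : Fin 4 → ℝ) 0 = 0 := by
    rw [Pi.single_apply, if_neg (Ne.symm hi)]
  simp [h5]

theorem pd_diff (u : V 4 → ℝ) (hu : ContDiff ℝ ∞ u) (i : Fin 4) : Differentiable ℝ (pd i u) := by
  have h1 : ContDiff ℝ ∞ (fderiv ℝ u) := hu.fderiv_right (by simp)
  have h2 : ContDiff ℝ ∞ (fun x => fderiv ℝ u x (Pi.single i 1)) :=
    h1.clm_apply contDiff_const
  exact h2.differentiable (by simp)

theorem LapF_proof : LapF := by
  refine ⟨fun u hu x => ?_, fun u x hx => ?_⟩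
  · have hq : ∀ y : V 4, q (y 0) ≠ 0 := fun y => (q_pos _).ne'
    have e0 : (fun y => √(gex y).det * grad gex u y 0) = pd 0 u := by
      funext y
      rw [sqrt_det, grad0, ← mul_assoc, mul_inv_cancel₀ (hq y), one_mul]
    have e1 : (fun y => √(gex y).det * grad gex u y 1) =
        fun y => (fun t => ((q t)⁻¹) ^ 2) (y 0) * pd 1 u y := by
      funext y
      have := hq y
      rw [sqrt_det, grad1]
      field_simp
    have e2 : (fun y => √(gex y).det * grad gex u y 2) =
        fun y => (fun t => (q t) ^ 2) (y 0) * pd 2 u y := by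
      funext y
      rw [sqrt_det, grad2]
      ring
    have e3 : (fun y => √(gex y).det * grad gex u y 3) =
        fun y => (fun t => (q t) ^ 2) (y 0) * pd 3 u y := by
      funext y
      rw [sqrt_det, grad3]
      ring
    have d1 : Differentiable ℝ (fun t => ((q t)⁻¹) ^ 2) :=
      (q_diff.inv (fun t => (q_pos t).ne')).pow 2
    have d2 : Differentiable ℝ (fun t => (q t) ^ 2) := q_diff.pow 2
    unfold lap
    rw [Fin.sum_univ_four, e0, e1, e2, e3, sqrt_det,
      pd_mul _ _ d1 (pd_diff u hu 1) 1 (by decide),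
      pd_mul _ _ d2 (pd_diff u hu 2) 2 (by decide),
      pd_mul _ _ d2 (pd_diff u hu 3) 3 (by decide)]
    ring
  · have hx2 : (x 0) ^ 2 = 1 := by rw [← sq_abs, hx]; norm_num
    have hq1 : q (x 0) = 1 := by
      unfold q
      rw [hx2]
      simp
    unfold normalD
    rw [grad0, inv_gex, hq1]
    simp

end Pool.Agent.W725.ST.LapF
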